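import Pool.Agent.H79.BN.Chk
import Pool.Agent.H79.BN.Targets2

/-!
# Row C5: soundness of the certificate of a vertex
-/

namespace Pool.Agent.H27.BN.C5

open Set Pool.Agent.H79.BN
open Pool.Agent.H93.BL (cr ip Polygon)

theorem cr_comb (e u v : ℂ) (α β : ℝ) :
    cr e ((α : ℂ) * u + (β : ℂ) * v) = α * cr e u + β * cr e v := by
  simp only [cr, Complex.add_re, Complex.add_im, Complex.mul_re, Complex.mul_im,
    Complex.ofReal_re, Complex.ofReal_im]
  ring

theorem cr_comb' (e u v : ℂ) (α β : ℝ) :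
    cr ((α : ℂ) * u + (β : ℂ) * v) e = α * cr u e + β * cr v e := by
  simp only [cr, Complex.add_re, Complex.add_im, Complex.mul_re, Complex.mul_im,
    Complex.ofReal_re, Complex.ofReal_im]
  ring

theorem rf_comb (e u v : ℂ) (α β : ℝ) :
    rf e ((α : ℂ) * u + (β : ℂ) * v) = (α : ℂ) * rf e u + (β : ℂ) * rf e v := by
  unfold rf
  rw [map_add, map_mul, map_mul, Complex.conj_ofReal, Complex.conj_ofReal]
  ring

theorem cr_self (a : ℂ) : cr a a = 0 := by
  unfold cr
  ring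

theorem cr_swap (a b : ℂ) : cr a b = -cr b a := by
  unfold cr
  ring

/-- the disjunction in the vertex criterion -/
def GG {n : ℕ} [NeZero n] (W : Fin n → ℂ) (EE : Set (Fin n)) (i : Fin n) (d : ℂ) : Prop :=
  Ab W EE (W (i + 1)) (-d) ∨ (cr (ed W i) d < 0 ∧ Ab W EE (W (i + 1)) (rf (ed W i) d)) ∨
    (cr (ed W (i + 1)) d < 0 ∧ Ab W EE (W (i + 1)) (rf (ed W (i + 1)) d))

section

variable {n : ℕ} [NeZero n] {w : Fin n → Pt} {D : Z5} {E : Fin n → Bool}

theorem opt (h1 : T_C1) (h2 : T_C2) (h3 : T_C3) (hn : 3 ≤ n) (hD : 0 < D.val)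
    (hw : ConvPos (fun i => (w i).val D)) (i : Fin n) (o : ℕ) (t : Tr n) (g1 g2 : Pt)
    (hc : chkOpt w D E i o t g1 g2 = true) (α β : ℝ) (hα : 0 < α) (hβ : 0 < β) :
    GG (fun i => (w i).val D) {i | E i = true} i ((α : ℂ) * g1.val D + (β : ℂ) * g2.val D) := by
  set W : Fin n → ℂ := fun i => (w i).val D with hW
  have one : Z5.val ⟨1, 0⟩ = 1 := (h1 ⟨1, 0⟩ ⟨1, 0⟩).2.2.2.2.2.2.2.2.2
  have e1 : ∀ s, (edz w s).val D = ed W s := fun s =>
    (h2 D (w (s + 1)) (w s) D hD).2.1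
  have key : ∀ u v : Pt, chk w D E t (w (i + 1)) ⟨1, 0⟩ u v = true →
      Ab W {i | E i = true} (W (i + 1)) ((α : ℂ) * u.val D + (β : ℂ) * v.val D) := by
    intro u v h
    have := h3 n w D E hn hD hw t (w (i + 1)) ⟨1, 0⟩ u v (by rw [one]; exact one_pos) h α β hα hβ 0
    rw [one, Complex.ofReal_one, div_one, Complex.ofReal_zero, zero_mul, add_zero] at this
    exact this
  have hsq : 0 < √D.val := Real.sqrt_pos.2 hD
  have ng : ∀ (e : Pt), neg2 (Pt.crz e g1) (Pt.crz e g2) = true →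
      cr (e.val D) ((α : ℂ) * g1.val D + (β : ℂ) * g2.val D) < 0 := by
    intro e h
    rw [cr_comb, (h2 D e g1 D hD).2.2.2.2.1, (h2 D e g2 D hD).2.2.2.2.1]
    unfold neg2 at h
    simp only [Bool.and_eq_true, Bool.or_eq_true] at h
    obtain ⟨⟨a1, a2⟩, a3⟩ := h
    obtain ⟨-, -, -, -, -, -, i1, -, i2, -⟩ := h1 (Pt.crz e g1) D
    obtain ⟨-, -, -, -, -, -, j1, -, j2, -⟩ := h1 (Pt.crz e g2) D
    have b1 := i2 a1
    have b2 := j2 a2
    rcases a3 with a3 | a3
    · have b3 := i1 a3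
      have c1 : α * (√D.val * (Pt.crz e g1).val) < 0 :=
        mul_neg_of_pos_of_neg hα (mul_neg_of_pos_of_neg hsq b3)
      have c2 : β * (√D.val * (Pt.crz e g2).val) ≤ 0 :=
        mul_nonpos_of_nonneg_of_nonpos hβ.le (mul_nonpos_of_nonneg_of_nonpos hsq.le b2)
      linarith
    · have b3 := j1 a3
      have c1 : β * (√D.val * (Pt.crz e g2).val) < 0 :=
        mul_neg_of_pos_of_neg hβ (mul_neg_of_pos_of_neg hsq b3)
      have c2 : α * (√D.val * (Pt.crz e g1).val) ≤ 0 :=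
        mul_nonpos_of_nonneg_of_nonpos hα.le (mul_nonpos_of_nonneg_of_nonpos hsq.le b1)
      linarith
  have rr : ∀ (e : Pt), chk w D E t (w (i + 1)) ⟨1, 0⟩ (Pt.rfz D e g1) (Pt.rfz D e g2) = true →
      Ab W {i | E i = true} (W (i + 1))
        (rf (e.val D) ((α : ℂ) * g1.val D + (β : ℂ) * g2.val D)) := by
    intro e h
    have := key _ _ h
    rw [← (h2 D e g1 D hD).2.2.2.2.2.2.1, ← (h2 D e g2 D hD).2.2.2.2.2.2.1, ← rf_comb] at this
    exact this
  unfold GG
  match o, hc with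
  | 0, hc =>
    left
    have h : chk w D E t (w (i + 1)) ⟨1, 0⟩ g1.neg g2.neg = true := hc
    have := key _ _ h
    rw [(h2 D g1 g1 D hD).2.2.1, (h2 D g2 g2 D hD).2.2.1] at this
    have e : (α : ℂ) * -g1.val D + (β : ℂ) * -g2.val D =
        -((α : ℂ) * g1.val D + (β : ℂ) * g2.val D) := by ring
    rw [e] at this
    exact this
  | 1, hc =>
    right; left
    have h : (neg2 (Pt.crz (edz w i) g1) (Pt.crz (edz w i) g2) &&
      chk w D E t (w (i + 1)) ⟨1, 0⟩ (Pt.rfz D (edz w i) g1) (Pt.rfz D (edz w i) g2)) = true := hc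
    rw [Bool.and_eq_true] at h
    rw [← e1]
    exact ⟨ng _ h.1, rr _ h.2⟩
  | (k + 2), hc =>
    right; right
    have h : (neg2 (Pt.crz (edz w (i + 1)) g1) (Pt.crz (edz w (i + 1)) g2) &&
      chk w D E t (w (i + 1)) ⟨1, 0⟩ (Pt.rfz D (edz w (i + 1)) g1)
        (Pt.rfz D (edz w (i + 1)) g2)) = true := hc
    rw [Bool.and_eq_true] at h
    rw [← e1]
    exact ⟨ng _ h.1, rr _ h.2⟩

theorem ray (h1 : T_C1) (h2 : T_C2) (h3 : T_C3) (hn : 3 ≤ n) (hD : 0 < D.val)
    (hw : ConvPos (fun i => (w i).val D)) (i : Fin n) (o : ℕ) (t : Tr n) (g : Pt)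
    (hc : chkOpt w D E i o t g g = true) (c : ℝ) (hc0 : 0 < c) :
    GG (fun i => (w i).val D) {i | E i = true} i ((c : ℂ) * g.val D) := by
  have h := opt h1 h2 h3 hn hD hw i o t g g hc (c / 2) (c / 2) (half_pos hc0) (half_pos hc0)
  have e : ((c / 2 : ℝ) : ℂ) * g.val D + ((c / 2 : ℝ) : ℂ) * g.val D = (c : ℂ) * g.val D := by
    push_cast
    ring
  rw [e] at h
  exact h

theorem cov (h1 : T_C1) (h2 : T_C2) (h3 : T_C3) (h4 : T_C4) (hn : 3 ≤ n) (hD : 0 < D.val)
    (hw : ConvPos (fun i => (w i).val D)) (i : Fin n) (gm : Pt) :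
    ∀ (L : List (Item n)) (a : Item n), chkCov w D E i gm (a :: L) = true →
      ∀ (d : ℂ) (α β : ℝ), d ≠ 0 → 0 ≤ α → 0 ≤ β → d = (α : ℂ) * a.g.val D + (β : ℂ) * gm.val D →
        GG (fun i => (w i).val D) {i | E i = true} i d := by
  have hsq : 0 < √D.val := Real.sqrt_pos.2 hD
  have ng : ∀ (p q : Pt), (Pt.crz p q).isneg = true → cr (p.val D) (q.val D) < 0 := by
    intro p q h
    rw [(h2 D p q D hD).2.2.2.2.1]
    exact mul_neg_of_pos_of_neg hsq ((h1 (Pt.crz p q) D).2.2.2.2.2.2.1 h)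
  intro L
  induction L with
  | nil =>
    intro a hc d α β hd hα hβ hdd
    have h : (decide (a.g = gm) && chkOpt w D E i a.o a.t a.g a.g) = true := hc
    rw [Bool.and_eq_true, decide_eq_true_eq] at h
    obtain ⟨hg, ho⟩ := h
    have e : d = ((α + β : ℝ) : ℂ) * a.g.val D := by
      rw [hdd, ← hg]
      push_cast
      ring
    have hpos : 0 < α + β := by
      rcases (add_nonneg hα hβ).lt_or_eq with h | h
      · exact h
      · exfalso
        apply hd
        rw [e, ← h, Complex.ofReal_zero, zero_mul]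
    rw [e]
    exact ray h1 h2 h3 hn hD hw i a.o a.t a.g ho _ hpos
  | cons b L ih =>
    intro a hc d α β hd hα hβ hdd
    have h : ((Pt.crz a.g b.g).isneg && (Pt.crz a.g gm).isneg &&
      chkOpt w D E i a.o a.t a.g a.g && chkOpt w D E i a.o' a.t' a.g b.g &&
      chkCov w D E i gm (b :: L)) = true := hc
    simp only [Bool.and_eq_true] at h
    obtain ⟨⟨⟨⟨k1, k2⟩, k3⟩, k4⟩, k5⟩ := h
    have c1 := ng _ _ k1
    have c2 := ng _ _ k2
    have gd : cr (a.g.val D) d ≤ 0 := by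
      rw [hdd, cr_comb, cr_self, mul_zero, zero_add]
      exact mul_nonpos_of_nonneg_of_nonpos hβ c2.le
    rcases le_or_gt 0 (cr (b.g.val D) d) with hs | hs
    · have dh : cr d (b.g.val D) ≤ 0 := by
        rw [cr_swap]
        linarith
      rcases h4 _ _ d hd c1 gd dh with ⟨c, hc0, hcd⟩ | ⟨c, hc0, hcd⟩ | ⟨α1, β1, ha1, hb1, hcd⟩
      · rw [hcd]
        exact ray h1 h2 h3 hn hD hw i a.o a.t a.g k3 c hc0
      · refine ih b k5 d c 0 hd hc0.le le_rfl ?_
        rw [hcd, Complex.ofReal_zero, zero_mul, add_zero]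
      · rw [hcd]
        exact opt h1 h2 h3 hn hD hw i a.o' a.t' a.g b.g k4 α1 β1 ha1 hb1
    · have dm : cr d (gm.val D) ≤ 0 := by
        rw [hdd, cr_comb', cr_self, mul_zero, add_zero]
        exact mul_nonpos_of_nonneg_of_nonpos hα c2.le
      match L, k5, ih with
      | [], k5, ih =>
        exfalso
        have h : (decide (b.g = gm) && chkOpt w D E i b.o b.t b.g b.g) = true := k5
        rw [Bool.and_eq_true, decide_eq_true_eq] at h
        rw [h.1, hdd, cr_comb, cr_self, mul_zero, add_zero, cr_swap] at hs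
        have := mul_nonpos_of_nonneg_of_nonpos hα c2.le
        linarith
      | b' :: L', k5, ih =>
        have h : ((Pt.crz b.g b'.g).isneg && (Pt.crz b.g gm).isneg &&
          chkOpt w D E i b.o b.t b.g b.g && chkOpt w D E i b.o' b.t' b.g b'.g &&
          chkCov w D E i gm (b' :: L')) = true := k5
        simp only [Bool.and_eq_true] at h
        have c3 := ng _ _ h.1.1.1.2
        rcases h4 _ _ d hd c3 hs.le dm with ⟨c, hc0, hcd⟩ | ⟨c, hc0, hcd⟩ | ⟨α1, β1, ha1, hb1, hcd⟩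
        · refine ih b k5 d c 0 hd hc0.le le_rfl ?_
          rw [hcd, Complex.ofReal_zero, zero_mul, add_zero]
        · refine ih b k5 d 0 c hd le_rfl hc0.le ?_
          rw [hcd, Complex.ofReal_zero, zero_mul, zero_add]
        · exact ih b k5 d α1 β1 hd ha1.le hb1.le hcd

end

theorem c5 (hv1 : T_V1) (h1 : T_C1) (h2 : T_C2) (h3 : T_C3) (h4 : T_C4) (hf0 : T_F0) : T_C5 := by
  intro n _ w D E hn hD hw i L hL
  set W : Fin n → ℂ := fun i => (w i).val D with hW
  have e1 : ∀ s, (edz w s).val D = ed W s := fun s =>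
    (h2 D (w (s + 1)) (w s) D hD).2.1
  intro d hd hd1 hd2
  obtain ⟨-, -, hv, -, -⟩ := hv1 n W hn hw
  match L, hL with
  | [], hL =>
    unfold chkV at hL
    simp at hL
  | a :: L', hL =>
    have h : (decide (a.g = edz w i) && chkCov w D E i (edz w (i + 1)).neg (a :: L')) = true := hL
    rw [Bool.and_eq_true, decide_eq_true_eq] at h
    obtain ⟨hg, hcv⟩ := h
    have em : ((edz w (i + 1)).neg).val D = -ed W (i + 1) := by
      rw [(h2 D (edz w (i + 1)) (edz w (i + 1)) D hD).2.2.1, e1]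
    have eg : a.g.val D = ed W i := by rw [hg, e1]
    have c1 : cr (ed W i) (-ed W (i + 1)) < 0 := by
      have := hv i
      have e : cr (ed W i) (-ed W (i + 1)) = -cr (ed W i) (ed W (i + 1)) := by
        simp only [cr, Complex.neg_re, Complex.neg_im]
        ring
      rw [e]
      linarith
    have c2 : cr d (-ed W (i + 1)) ≤ 0 := by
      have e : cr d (-ed W (i + 1)) = cr (ed W (i + 1)) d := by
        simp only [cr, Complex.neg_re, Complex.neg_im]
        ring
      rw [e]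
      exact hd2
    have key := cov h1 h2 h3 h4 hn hD hw i (edz w (i + 1)).neg L' a hcv d
    rw [eg, em] at key
    have fin : GG W {i | E i = true} i d := by
      rcases h4 _ _ d hd c1 hd1 c2 with ⟨c, hc0, hcd⟩ | ⟨c, hc0, hcd⟩ | ⟨α1, β1, ha1, hb1, hcd⟩
      · refine key c 0 hd hc0.le le_rfl ?_
        rw [hcd, Complex.ofReal_zero, zero_mul, add_zero]
      · refine key 0 c hd le_rfl hc0.le ?_
        rw [hcd, Complex.ofReal_zero, zero_mul, zero_add]
      · exact key α1 β1 hd ha1.le hb1.le hcd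
    exact fin

end Pool.Agent.H27.BN.C5
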