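import Pool.Agent.H79.BN.Targets2

/-!
# Row F3: the absorbed sector
-/

namespace Pool.Agent.H27.BN.F3

open MeasureTheory Set Filter Topology Pool.Agent.H93.BL Pool.Agent.H79.BN

theorem cr_smul (e v : ℂ) (ρ : ℝ) : cr e ((ρ : ℂ) * v) = ρ * cr e v := by
  simp only [cr, Complex.mul_re, Complex.mul_im, Complex.ofReal_re, Complex.ofReal_im]
  ring

theorem cr_seg (e V p q z : ℂ) (a b : ℝ) (hab : a + b = 1) (hz : a • p + b • q = z) :
    cr e (z - V) = a * cr e (p - V) + b * cr e (q - V) := by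
  have hb : b = 1 - a := by linarith
  subst hb
  rw [← hz]
  simp only [cr, Complex.sub_re, Complex.sub_im, Complex.add_re, Complex.add_im,
    Complex.real_smul, Complex.mul_re, Complex.mul_im, Complex.ofReal_re, Complex.ofReal_im]
  ring

theorem f3 (h0 : T_V0) (h1 : T_V1) (h3 : T_V3) (hrm : T_RM) (hrp : T_RP) (hf0 : T_F0)
    (hf1 : T_F1) (hf2 : T_F2) : T_F3 := by
  intro n _ w E hn hw i c x hc0 hcph
  obtain ⟨hph0, hphpi, hdr, he1, he0, hk⟩ := hf1 n w hn hw i
  obtain ⟨hne, hinj, -, -, -⟩ := h1 n w hn hw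
  have hF2 := hf2 n w hn hw i
  set ph := ang w i with hph
  set V := w (i + 1) with hV
  have hed : ∀ j, 0 < ‖ed w j‖ := fun j => norm_pos_iff.2 (hne j)
  obtain ⟨v1, -, -, v4, -, -, v7, -, -, v10⟩ := h0 n hn i
  have hno : ∀ x, 0 < x → x < ph → (∀ s, s ∉ E → s ≠ i → s ≠ i + 1 → ∀ τ : ℝ,
      V + (τ : ℂ) * dx w i x ∈ segment ℝ (w s) (w (s + 1)) → τ ≤ 0) →
      AbL w E V (dx w i x) := by
    intro x hx0 hxph H τ
    have hd0 : dx w i x ≠ 0 := by
      unfold dx
      apply mul_ne_zero
      · intro h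
        rw [h, norm_zero] at hdr
        exact zero_ne_one hdr
      · exact Complex.exp_ne_zero _
    apply hrm n w E _ _ hn hw hd0
    intro s hs t _ hz hcr
    exfalso
    obtain ⟨-, e2, e3, -, -, -, -, -⟩ := hF2 x 0
    have hsx : 0 < Real.sin x := Real.sin_pos_of_pos_of_lt_pi hx0 (by linarith)
    have hsx2 : 0 < Real.sin (ph - x) :=
      Real.sin_pos_of_pos_of_lt_pi (by linarith) (by linarith)
    have hsi : s ≠ i := by
      rintro rfl
      rw [e3] at hcr
      have := mul_pos (hed s) hsx2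
      linarith
    have hsi1 : s ≠ i + 1 := by
      rintro rfl
      rw [e2] at hcr
      have := mul_pos (hed (i + 1)) hsx
      linarith
    have hz' : V + (τ : ℂ) * dx w i x + (t : ℂ) * dx w i x =
        V + ((τ + t : ℝ) : ℂ) * dx w i x := by
      push_cast
      ring
    rw [hz'] at hz
    have ht1 := H s hs hsi hsi1 (τ + t) hz
    obtain ⟨w1, -, -, w4, -⟩ := h3 n w hn hw (i + 1) s _ hz
    have ht2 : 0 ≤ τ + t := by
      have h5 := w1 (i + 1)
      have h6 : V + ((τ + t : ℝ) : ℂ) * dx w i x - w (i + 1) = ((τ + t : ℝ) : ℂ) * dx w i x := by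
        rw [← hV]
        ring
      rw [h6, cr_smul, e2] at h5
      have := mul_pos (hed (i + 1)) hsx
      by_contra hneg
      push Not at hneg
      have := mul_neg_of_neg_of_pos hneg this
      linarith
    have ht0 : τ + t = 0 := le_antisymm ht1 ht2
    have h7 := w4 (by rw [ht0, Complex.ofReal_zero, zero_mul, add_zero])
    rw [v7] at h7
    rcases h7 with h7 | h7
    · exact hsi h7
    · exact hsi1 h7
  constructor
  · intro hR hcx hxph
    rcases hxph.lt_or_eq with hlt | heq
    · apply hno x (by linarith) hlt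
      intro s hs hsi hsi1 τ hz
      obtain ⟨g1, g2⟩ := hR s hs hsi hsi1
      have hs1 : s + 1 ≠ i + 1 := fun h => hsi (add_right_cancel h)
      obtain ⟨k1, -, -, k4⟩ := hk s hsi1
      obtain ⟨l1, -, -, l4⟩ := hk (s + 1) hs1
      obtain ⟨a, b, ha, hb, hab, hz⟩ := hz
      have e := cr_seg (dx w i c) V (w s) (w (s + 1)) _ a b hab hz
      have e5 : V + (τ : ℂ) * dx w i x - V = (τ : ℂ) * dx w i x := by ring
      rw [e5, cr_smul, k4, l4, cr_smul, cr_smul, (hF2 c x).1, (hF2 c _).1, (hF2 c _).1] at e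
      have s1 : Real.sin (angR w i s - c) ≤ 0 :=
        Real.sin_nonpos_of_nonpos_of_neg_pi_le (by linarith) (by linarith)
      have s2 : Real.sin (angR w i (s + 1) - c) ≤ 0 :=
        Real.sin_nonpos_of_nonpos_of_neg_pi_le (by linarith) (by linarith)
      have s3 : 0 < Real.sin (x - c) :=
        Real.sin_pos_of_pos_of_lt_pi (by linarith) (by linarith)
      have m1 : a * (‖w s - V‖ * Real.sin (angR w i s - c)) ≤ 0 :=
        mul_nonpos_of_nonneg_of_nonpos ha (mul_nonpos_of_nonneg_of_nonpos (norm_nonneg _) s1)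
      have m2 : b * (‖w (s + 1) - V‖ * Real.sin (angR w i (s + 1) - c)) ≤ 0 :=
        mul_nonpos_of_nonneg_of_nonpos hb (mul_nonpos_of_nonneg_of_nonpos (norm_nonneg _) s2)
      by_contra hτ
      push Not at hτ
      have := mul_pos hτ s3
      linarith
    · obtain ⟨-, -, -, -, u5, u6, -, u8, -, -⟩ := h0 n hn i
      have hmem : i - 1 ∈ E := by
        by_contra hE
        have h5 := (hR (i - 1) hE u5 u8).2
        rw [u6] at h5
        obtain ⟨-, k2, -, -⟩ := hk i (fun h => v1 h.symm)
        have h6 : angL w i i = 0 := by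
          unfold angL
          apply EuclideanGeometry.angle_self_of_ne
          intro h
          exact v1 (hinj _ _ h).symm
        rw [h6, add_zero] at k2
        linarith
      have hc' : 0 < ‖ed w i‖⁻¹ := inv_pos.2 (hed i)
      have h8 := (hrp n w E (dx w i x) (i + 1) ‖ed w i‖⁻¹ hn hw hc').2
      rw [v7, v10] at h8
      apply h8 _ (Or.inl hmem)
      rw [heq]
      have hnn : ((‖ed w i‖ : ℝ) : ℂ) ≠ 0 := by
        rw [Complex.ofReal_ne_zero]
        exact (hed i).ne'
      rw [Complex.ofReal_inv]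
      have key : ∀ (N u v : ℂ), N ≠ 0 → v = -(N * u) → u = -(N⁻¹ * v) := by
        intro N u v hN h
        rw [h]
        field_simp
      exact key _ _ _ hnn he0
  · intro hL hx0 hxph
    rcases hx0.lt_or_eq with hlt | heq
    · apply hno x hlt (by linarith)
      intro s hs hsi hsi1 τ hz
      obtain ⟨g1, g2⟩ := hL s hs hsi hsi1
      have hs1 : s + 1 ≠ i + 1 := fun h => hsi (add_right_cancel h)
      obtain ⟨k1, k2, k3, k4⟩ := hk s hsi1
      obtain ⟨l1, l2, l3, l4⟩ := hk (s + 1) hs1
      obtain ⟨a, b, ha, hb, hab, hz⟩ := hz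
      have e := cr_seg (dx w i (ph - c)) V (w s) (w (s + 1)) _ a b hab hz
      have e5 : V + (τ : ℂ) * dx w i x - V = (τ : ℂ) * dx w i x := by ring
      rw [e5, cr_smul, k4, l4, cr_smul, cr_smul, (hF2 (ph - c) x).1, (hF2 (ph - c) _).1,
        (hF2 (ph - c) _).1] at e
      have s1 : 0 ≤ Real.sin (angR w i s - (ph - c)) :=
        Real.sin_nonneg_of_nonneg_of_le_pi (by linarith) (by linarith)
      have s2 : 0 ≤ Real.sin (angR w i (s + 1) - (ph - c)) :=
        Real.sin_nonneg_of_nonneg_of_le_pi (by linarith) (by linarith)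
      have s3 : Real.sin (x - (ph - c)) < 0 :=
        Real.sin_neg_of_neg_of_neg_pi_lt (by linarith) (by linarith)
      have m1 : 0 ≤ a * (‖w s - V‖ * Real.sin (angR w i s - (ph - c))) := by positivity
      have m2 : 0 ≤ b * (‖w (s + 1) - V‖ * Real.sin (angR w i (s + 1) - (ph - c))) := by
        positivity
      by_contra hτ
      push Not at hτ
      have := mul_neg_of_pos_of_neg hτ s3
      linarith
    · obtain ⟨-, u2, u3, u4, -, -, -, -, -, -⟩ := h0 n hn i
      have hmem : i + 2 ∈ E := by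
        by_contra hE
        have h5 := (hL (i + 2) hE u2 u3).1
        have h6 : angL w i (i + 2) = ph := rfl
        rw [h6] at h5
        linarith
      have hc' : 0 < ‖ed w (i + 1)‖⁻¹ := inv_pos.2 (hed (i + 1))
      have h8 := (hrp n w E (dx w i x) (i + 1) ‖ed w (i + 1)‖⁻¹ hn hw hc').1
      rw [u4] at h8
      apply h8 _ (Or.inl hmem)
      rw [← heq]
      have hnn : ((‖ed w (i + 1)‖ : ℝ) : ℂ) ≠ 0 := by
        rw [Complex.ofReal_ne_zero]
        exact (hed (i + 1)).ne'
      rw [Complex.ofReal_inv]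
      have key : ∀ (N u v : ℂ), N ≠ 0 → v = N * u → u = N⁻¹ * v := by
        intro N u v hN h
        rw [h]
        field_simp
      exact key _ _ _ hnn he1

end Pool.Agent.H27.BN.F3
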