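import Pool.Agent.H79.BN.Targets2

/-!
# Row F5: the angle criterion implies the vertex criterion
-/

namespace Pool.Agent.H27.BN

open MeasureTheory Set Filter Topology Pool.Agent.H93.BL Pool.Agent.H79.BN

theorem cr_neg_smul (e v : ℂ) (ρ : ℝ) : cr e (-((ρ : ℂ) * v)) = -(ρ * cr e v) := by
  simp only [cr, Complex.neg_re, Complex.neg_im, Complex.mul_re, Complex.mul_im,
    Complex.ofReal_re, Complex.ofReal_im]
  ring

theorem rf_neg_smul (e v : ℂ) (ρ : ℝ) : rf e (-((ρ : ℂ) * v)) = -((ρ : ℂ) * rf e v) := by
  unfold rf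
  rw [map_neg, map_mul, Complex.conj_ofReal]
  ring

theorem f5 (hf0 : T_F0) (hf1 : T_F1) (hf2 : T_F2) (hf3 : T_F3) (hf4 : T_F4) : T_F5 := by
  intro n _ w E hn hw i hg d hd hd1 hd2
  obtain ⟨c, hc0, hRL, m, hm1, hm2⟩ := hg
  obtain ⟨hph0, hphpi, -, -, -, -⟩ := hf1 n w hn hw i
  set ph := ang w i with hph
  have hF2 := hf2 n w hn hw i
  obtain ⟨-, -, -, -, -, -, -, hdec⟩ := hF2 0 0
  obtain ⟨ρ, x, hρ, hx0, hx1, hdx⟩ := hdec d hd hd1 hd2
  have hcph : c < ph := by linarith [abs_nonneg (Real.pi - 2 * m * ph)]
  -- scaling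
  have sc : ∀ (r : ℝ) (v : ℂ), 0 < r → Ab w E (w (i + 1)) v → Ab w E (w (i + 1)) ((r : ℂ) * v) := by
    intro r v hr h
    apply hf0 n w E _ _ r⁻¹ (inv_pos.2 hr)
    have e : ((r⁻¹ : ℝ) : ℂ) * ((r : ℂ) * v) = v := by
      rw [← mul_assoc, ← Complex.ofReal_mul, inv_mul_cancel₀ hr.ne', Complex.ofReal_one, one_mul]
    rw [e]
    exact h
  have z0 : ∀ y, AbL w E (w (i + 1)) (dx w i y) → Ab w E (w (i + 1)) (dx w i y) := by
    intro y h
    have := h 0
    rw [Complex.ofReal_zero, zero_mul, add_zero] at this
    exact this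
  have hni : ∀ j, 0 < ‖ed w j‖ → 0 < ‖ed w j‖ ^ 2 := fun j h => by positivity
  have hpi2 : ∀ y, dx w i (y + Real.pi) = -dx w i y := fun y => by
    obtain ⟨-, -, -, -, -, -, h, -⟩ := hF2 y 0
    exact h
  have hed : ∀ j, 0 < ‖ed w j‖ := by
    intro j
    rw [norm_pos_iff]
    intro h
    have h1 := hw j (j + 1 + 1)
    by_contra
    have key : ∀ a : Fin n, a ≠ j → a ≠ j + 1 → False := by
      intro a h2 h3
      have h4 := hw j a h2 h3
      rw [h] at h4
      simp [cr] at h4
    have hcard : 3 ≤ Fintype.card (Fin n) := by rw [Fintype.card_fin]; exact hn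
    obtain ⟨a, ha⟩ : ∃ a : Fin n, a ∉ ({j, j + 1} : Finset (Fin n)) := by
      by_contra hno
      push Not at hno
      have h5 : Finset.univ ⊆ ({j, j + 1} : Finset (Fin n)) := fun a _ => hno a
      have h6 := Finset.card_le_card h5
      have h7 : ({j, j + 1} : Finset (Fin n)).card ≤ 2 := Finset.card_le_two
      rw [Finset.card_univ] at h6
      omega
    rw [Finset.mem_insert, Finset.mem_singleton, not_or] at ha
    exact key a ha.1 ha.2
  -- the three options
  have optA : Ab w E (w (i + 1)) (dx w i x) → Ab w E (w (i + 1)) (-d) ∨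
      (cr (ed w i) d < 0 ∧ Ab w E (w (i + 1)) (rf (ed w i) d)) ∨
      (cr (ed w (i + 1)) d < 0 ∧ Ab w E (w (i + 1)) (rf (ed w (i + 1)) d)) := by
    intro h
    left
    rw [hdx, neg_neg]
    exact sc _ _ hρ h
  have optB : x < ph → Ab w E (w (i + 1)) (dx w i (2 * ph - x - Real.pi)) →
      Ab w E (w (i + 1)) (-d) ∨
      (cr (ed w i) d < 0 ∧ Ab w E (w (i + 1)) (rf (ed w i) d)) ∨
      (cr (ed w (i + 1)) d < 0 ∧ Ab w E (w (i + 1)) (rf (ed w (i + 1)) d)) := by
    intro hxp h
    right; left
    obtain ⟨-, -, h3, -, h5, -, -, -⟩ := hF2 x 0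
    constructor
    · rw [hdx, cr_neg_smul, h3]
      have : 0 < Real.sin (ang w i - x) :=
        Real.sin_pos_of_pos_of_lt_pi (by linarith) (by linarith)
      have h8 := mul_pos hρ (mul_pos (hed i) this)
      linarith
    · rw [hdx, rf_neg_smul, h5]
      have e1 : dx w i (2 * ang w i - x) = -dx w i (2 * ph - x - Real.pi) := by
        rw [← hpi2]
        congr 1
        ring
      have e2 : -((ρ : ℂ) * (((‖ed w i‖ ^ 2 : ℝ) : ℂ) * dx w i (2 * ang w i - x))) =
          ((ρ * ‖ed w i‖ ^ 2 : ℝ) : ℂ) * dx w i (2 * ph - x - Real.pi) := by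
        rw [e1]
        push_cast
        ring
      rw [e2]
      exact sc _ _ (mul_pos hρ (hni i (hed i))) h
  have optC : 0 < x → Ab w E (w (i + 1)) (dx w i (Real.pi - x)) →
      Ab w E (w (i + 1)) (-d) ∨
      (cr (ed w i) d < 0 ∧ Ab w E (w (i + 1)) (rf (ed w i) d)) ∨
      (cr (ed w (i + 1)) d < 0 ∧ Ab w E (w (i + 1)) (rf (ed w (i + 1)) d)) := by
    intro hxp h
    right; right
    obtain ⟨-, h2, -, h4, -, -, -, -⟩ := hF2 x 0
    constructor
    · rw [hdx, cr_neg_smul, h2]
      have : 0 < Real.sin x := Real.sin_pos_of_pos_of_lt_pi hxp (by linarith)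
      have h8 := mul_pos hρ (mul_pos (hed (i + 1)) this)
      linarith
    · rw [hdx, rf_neg_smul, h4]
      have e1 : dx w i (Real.pi - x) = -dx w i (-x) := by
        rw [← hpi2]
        congr 1
        ring
      have e2 : -((ρ : ℂ) * (((‖ed w (i + 1)‖ ^ 2 : ℝ) : ℂ) * dx w i (-x))) =
          ((ρ * ‖ed w (i + 1)‖ ^ 2 : ℝ) : ℂ) * dx w i (Real.pi - x) := by
        rw [e1]
        push_cast
        ring
      rw [e2]
      exact sc _ _ (mul_pos hρ (hni _ (hed _))) h
  obtain ⟨hR, hL⟩ := hf3 n w E hn hw i c x hc0 hcph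
  rcases hRL with hk | hk
  · -- the right case
    have hR' : ∀ y, c < y → y ≤ ph → AbL w E (w (i + 1)) (dx w i y) := fun y h1 h2 =>
      (hf3 n w E hn hw i c y hc0 hcph).1 hk h1 h2
    have F : ∀ (y t : ℝ) (k : ℤ), ph - Real.pi < y → y < Real.pi → c < t → t ≤ ph →
        (t = y + 2 * k * ph ∨ t = -y + 2 * k * ph) → Ab w E (w (i + 1)) (dx w i y) := by
      intro y t k h1 h2 h3 h4 h5
      exact z0 _ (hf4 n w E hn hw i (Ioc c ph) (fun z hz _ _ => hR' z hz.1 hz.2) y t k h1 h2
        ⟨h3, h4⟩ (by linarith) h4 h5)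
    by_cases hxc : c < x
    · exact optA (z0 _ (hR' x hxc hx1))
    · push Not at hxc
      rcases le_or_gt 0 (Real.pi - 2 * m * ph) with hs | hs
      · rw [abs_of_nonneg hs] at hm1 hm2
        apply optB (by linarith)
        by_cases ht : x + (Real.pi - 2 * m * ph) ≤ ph
        · refine F _ (x + (Real.pi - 2 * m * ph)) (1 - m) (by linarith) (by linarith)
            (by linarith) ht (Or.inr ?_)
          push_cast
          ring
        · push Not at ht
          refine F _ (2 * ph - (Real.pi - 2 * m * ph) - x) m (by linarith) (by linarith)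
            (by linarith) (by linarith) (Or.inl ?_)
          push_cast
          ring
      · rw [abs_of_neg hs] at hm1 hm2
        rcases hx0.lt_or_eq with hx | hx
        · apply optC hx
          by_cases ht : x + -(Real.pi - 2 * m * ph) ≤ ph
          · refine F _ (x + -(Real.pi - 2 * m * ph)) m (by linarith) (by linarith)
              (by linarith) ht (Or.inr ?_)
            push_cast
            ring
          · push Not at ht
            refine F _ (2 * ph - -(Real.pi - 2 * m * ph) - x) (1 - m) (by linarith) (by linarith)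
              (by linarith) (by linarith) (Or.inl ?_)
            push_cast
            ring
        · apply optB (by linarith)
          by_cases ht : x + -(Real.pi - 2 * m * ph) ≤ ph
          · refine F _ (x + -(Real.pi - 2 * m * ph)) (m - 1) (by linarith) (by linarith)
              (by linarith) ht (Or.inl ?_)
            push_cast
            rw [← hx]
            ring
          · push Not at ht
            refine F _ (2 * ph - -(Real.pi - 2 * m * ph) - x) (2 - m) (by linarith) (by linarith)
              (by linarith) (by linarith) (Or.inr ?_)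
            push_cast
            rw [← hx]
            ring
  · -- the left case
    have hL' : ∀ y, 0 ≤ y → y < ph - c → AbL w E (w (i + 1)) (dx w i y) := fun y h1 h2 =>
      (hf3 n w E hn hw i c y hc0 hcph).2 hk h1 h2
    have F : ∀ (y t : ℝ) (k : ℤ), ph - Real.pi < y → y < Real.pi → 0 ≤ t → t < ph - c →
        (t = y + 2 * k * ph ∨ t = -y + 2 * k * ph) → Ab w E (w (i + 1)) (dx w i y) := by
      intro y t k h1 h2 h3 h4 h5
      exact z0 _ (hf4 n w E hn hw i (Ico 0 (ph - c)) (fun z hz _ _ => hL' z hz.1 hz.2) y t k h1 h2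
        ⟨h3, h4⟩ h3 (by linarith) h5)
    by_cases hxc : x < ph - c
    · exact optA (z0 _ (hL' x hx0 hxc))
    · push Not at hxc
      rcases le_or_gt 0 (Real.pi - 2 * m * ph) with hs | hs
      · rw [abs_of_nonneg hs] at hm1 hm2
        apply optC (by linarith)
        by_cases ht : 0 ≤ x - (Real.pi - 2 * m * ph)
        · refine F _ (x - (Real.pi - 2 * m * ph)) m (by linarith) (by linarith)
            ht (by linarith) (Or.inr ?_)
          push_cast
          ring
        · push Not at ht
          refine F _ ((Real.pi - 2 * m * ph) - x) (-m) (by linarith) (by linarith)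
            (by linarith) (by linarith) (Or.inl ?_)
          push_cast
          ring
      · rw [abs_of_neg hs] at hm1 hm2
        rcases hx1.lt_or_eq with hx | hx
        · apply optB hx
          by_cases ht : 0 ≤ x - -(Real.pi - 2 * m * ph)
          · refine F _ (x - -(Real.pi - 2 * m * ph)) (1 - m) (by linarith) (by linarith)
              ht (by linarith) (Or.inr ?_)
            push_cast
            ring
          · push Not at ht
            refine F _ (-(Real.pi - 2 * m * ph) - x) (m - 1) (by linarith) (by linarith)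
              (by linarith) (by linarith) (Or.inl ?_)
            push_cast
            ring
        · apply optC (by linarith)
          by_cases ht : 0 ≤ x - -(Real.pi - 2 * m * ph)
          · refine F _ (x - -(Real.pi - 2 * m * ph)) (1 - m) (by linarith) (by linarith)
              ht (by linarith) (Or.inl ?_)
            push_cast
            linear_combination 2 * hx
          · push Not at ht
            refine F _ (-(Real.pi - 2 * m * ph) - x) (m - 1) (by linarith) (by linarith)
              (by linarith) (by linarith) (Or.inr ?_)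
            push_cast
            linear_combination (-2 : ℝ) * hx

end Pool.Agent.H27.BN
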